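import Pool.Agent.H62.N6.Defs

set_option autoImplicit false

/-! MODULE F0/ClsA (about 80 lines). MP_4f0605_nt: finite counting for the class count.

PROOF. The map `z ↦ (fun l => y l z) : Z → (Fin s → F)` has at most `(card F)^s` values; for a fixed value `w` every coordinate `z i` is a root of the
monic (hence nonzero) polynomial `g w i` of degree at most `d i` (`Polynomial.card_roots'`, `Polynomial.mem_roots`), so the fibre is contained in a
`Fintype.piFinset` of root sets: at most `∏ i, d i` elements (`Fintype.card_piFinset`, `Multiset.toFinset_card_le`).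
`Finset.card_le_mul_card_image`. -/

open scoped BigOperators

namespace Pool.Agent.H62.N6

theorem card_le_of_monic {F : Type} [Field F] [Fintype F] {σ : Type} [Fintype σ]
    (Z : Finset (σ → F)) (s : ℕ) (y : (σ → F) → Fin s → F) (d : σ → ℕ)
    (g : (Fin s → F) → σ → Polynomial F) (hmon : ∀ w i, (g w i).Monic)
    (hdeg : ∀ w i, (g w i).natDegree ≤ d i)
    (hroot : ∀ z ∈ Z, ∀ i, (g (y z) i).eval (z i) = 0) :
    Z.card ≤ (∏ i, d i) * Fintype.card F ^ s := by
  classical
  have h1 : Z.card ≤ (∏ i, d i) * (Z.image y).card := by
    refine Finset.card_le_mul_card_image Z (∏ i, d i) ?_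
    intro w _
    have hsub : (Z.filter fun z => y z = w) ⊆
        Fintype.piFinset fun i => (g w i).roots.toFinset := by
      intro z hz
      rw [Finset.mem_filter] at hz
      rw [Fintype.mem_piFinset]
      intro i
      rw [Multiset.mem_toFinset, Polynomial.mem_roots (hmon w i).ne_zero, Polynomial.IsRoot.def,
        ← hz.2]
      exact hroot z hz.1 i
    refine (Finset.card_le_card hsub).trans ?_
    rw [Fintype.card_piFinset]
    refine Finset.prod_le_prod' fun i _ => ?_
    exact (Multiset.toFinset_card_le _).trans ((Polynomial.card_roots' _).trans (hdeg w i))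
  refine h1.trans (Nat.mul_le_mul_left _ ?_)
  refine (Finset.card_le_univ _).trans ?_
  rw [Fintype.card_fun, Fintype.card_fin]

/-- pigeonhole: some fibre of `f` on `S` has at least `card S / card (image)` elements -/
theorem exists_fibre {α β : Type} [DecidableEq β] (S : Finset α) (f : α → β) (N : ℕ)
    (hN : (S.image f).card ≤ N) (hS : S.Nonempty) :
    ∃ x ∈ S, S.card ≤ N * (S.filter fun y => f y = f x).card := by
  obtain ⟨x, hx, hmax⟩ := Finset.exists_max_image S (fun x => (S.filter fun y => f y = f x).card) hS
  refine ⟨x, hx, ?_⟩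
  have h1 : S.card ≤ (S.filter fun y => f y = f x).card * (S.image f).card := by
    refine Finset.card_le_mul_card_image S _ ?_
    intro b hb
    obtain ⟨z, hz, rfl⟩ := Finset.mem_image.mp hb
    exact hmax z hz
  refine h1.trans ?_
  rw [mul_comm]
  exact Nat.mul_le_mul_right _ hN

end Pool.Agent.H62.N6
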