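import Pool.Agent.H62.N6.Defs

set_option autoImplicit false

/-! MODULE F0/IsP (about 90 lines). MP_4f0605_nt: the field `k_p` for a sequence of primes.

PROOF of `exists_isP`. `I = {a : ∀ᶠ j in U, p_j ∣ a_j}` is an ideal of `ℕ → ℤ` (`Filter.Eventually.and`, `dvd_add`, `Dvd.dvd.mul_left`). It is maximal
(`Ideal.Quotient.maximal_of_isField`, or `Ideal.isMaximal_iff`): `1 ∉ I` (`p_j ∤ 1`, and `U` is not `⊥`); if `a ∉ I` then (ultrafilter:
`Ultrafilter.eventually_not`) `p_j ∤ a_j` for `U`-many `j`, so there is `b_j` with `p_j ∣ a_j b_j - 1` (Bezout: `Int.isCoprime_iff_gcd_eq_one`,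
`Int.gcd_eq_gcd_ab`, the prime `p_j` does not divide `a_j`; put `b_j = 0` for the other `j`). So `k = (ℕ → ℤ) ⧸ I` with the field structure
`Ideal.Quotient.field I`, `ψ = Ideal.Quotient.mk I`; `ker`: `Ideal.Quotient.eq_zero_iff_mem`, `surj`: `Ideal.Quotient.mk_surjective`.
PROOF of `charZero`. `(n : k) = ψ (fun _ => n)`; if it is zero and `n ≠ 0` then `p_j ∣ n` for `U`-many `j`, so `p_j ≤ n` for `U`-many `j`, against
`p → ∞` along `U` (`ht.eventually_gt_atTop n`). -/

open MvPolynomial Filter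

namespace Pool.Agent.H62.N6

variable {U : Ultrafilter ℕ}

/-- `k_p` = quotient of the ring of sequences by the (maximal) ideal of the sequences divisible by `p_j` for `U`-many `j`. -/
theorem exists_isP (U : Ultrafilter ℕ) (p : ℕ → ℕ) (hp : ∀ᶠ j in (U : Filter ℕ), (p j).Prime) :
    ∃ (k : Type) (_ : Field k) (ψ : (ℕ → ℤ) →+* k), IsP U p ψ := by
  let I : Ideal (ℕ → ℤ) :=
    { carrier := {a | ∀ᶠ j in (U : Filter ℕ), (p j : ℤ) ∣ a j}
      add_mem' := by
        intro a b ha hb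
        change ∀ᶠ j in (U : Filter ℕ), (p j : ℤ) ∣ a j at ha
        change ∀ᶠ j in (U : Filter ℕ), (p j : ℤ) ∣ b j at hb
        change ∀ᶠ j in (U : Filter ℕ), (p j : ℤ) ∣ (a + b) j
        filter_upwards [ha, hb] with j h1 h2
        exact dvd_add h1 h2
      zero_mem' := by
        change ∀ᶠ j in (U : Filter ℕ), (p j : ℤ) ∣ (0 : ℕ → ℤ) j
        exact Filter.Eventually.of_forall fun j => dvd_zero _
      smul_mem' := by
        intro c a ha
        change ∀ᶠ j in (U : Filter ℕ), (p j : ℤ) ∣ a j at ha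
        change ∀ᶠ j in (U : Filter ℕ), (p j : ℤ) ∣ (c • a) j
        filter_upwards [ha] with j h1
        exact Dvd.dvd.mul_left h1 _ }
  have hI : ∀ a, a ∈ I ↔ ∀ᶠ j in (U : Filter ℕ), (p j : ℤ) ∣ a j := fun a => Iff.rfl
  have hmax : I.IsMaximal := by
    rw [Ideal.isMaximal_iff]
    constructor
    · rw [hI]
      intro h
      obtain ⟨j, h1, h2⟩ := (h.and hp).exists
      have h3 : (p j : ℤ) ∣ 1 := h1
      have h4 : p j ∣ 1 := by exact_mod_cast h3
      exact h2.one_lt.ne' (Nat.dvd_one.mp h4)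
    · intro J x hIJ hx hxJ
      rw [hI, ← Ultrafilter.eventually_not] at hx
      have hex : ∀ j, ∃ b : ℤ, (p j).Prime → ¬ (p j : ℤ) ∣ x j → (p j : ℤ) ∣ 1 - b * x j := by
        intro j
        by_cases h1 : (p j).Prime
        · by_cases h2 : (p j : ℤ) ∣ x j
          · exact ⟨0, fun _ h => (h h2).elim⟩
          · have h3 : IsCoprime (p j : ℤ) (x j) :=
              ((Nat.prime_iff_prime_int.mp h1).coprime_iff_not_dvd).mpr h2
            obtain ⟨u, v, huv⟩ := h3
            refine ⟨v, fun _ _ => ⟨u, ?_⟩⟩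
            linear_combination -huv
        · exact ⟨0, fun h => (h1 h).elim⟩
      choose b hb using hex
      have h1 : (1 - b * x : ℕ → ℤ) ∈ I := by
        rw [hI]
        filter_upwards [hp, hx] with j h2 h3
        exact hb j h2 h3
      have h2 : (1 : ℕ → ℤ) = (1 - b * x) + b * x := by ring
      rw [h2]
      exact J.add_mem (hIJ h1) (J.mul_mem_left _ hxJ)
  have hP : @IsP U p ((ℕ → ℤ) ⧸ I) (Ideal.Quotient.field I) (Ideal.Quotient.mk I) := by
    let _ := Ideal.Quotient.field I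
    exact ⟨fun a => Ideal.Quotient.eq_zero_iff_mem, Ideal.Quotient.mk_surjective⟩
  exact ⟨(ℕ → ℤ) ⧸ I, Ideal.Quotient.field I, Ideal.Quotient.mk I, hP⟩

theorem IsP.charZero {p : ℕ → ℕ} {k : Type} [Field k] {ψ : (ℕ → ℤ) →+* k} (h : IsP U p ψ)
    (ht : Tendsto p (U : Filter ℕ) atTop) : CharZero k := by
  apply charZero_of_inj_zero
  intro n hn
  rw [← map_natCast ψ n, h.ker] at hn
  obtain ⟨j, hj, hj2⟩ := (hn.and (ht.eventually (eventually_gt_atTop n))).exists
  have h1 : (p j : ℤ) ∣ ((n : ℕ) : ℤ) := hj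
  have h2 : p j ∣ n := by exact_mod_cast h1
  exact Nat.eq_zero_of_dvd_of_lt h2 hj2

end Pool.Agent.H62.N6
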