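import Pool.Agent.H62.N6.Defs

set_option autoImplicit false

/-! MODULE F0/Seq (about 110 lines). MP_4f0605_nt: sequences of polynomials and points, transfer.

`G : MvPolynomial σ (ℕ → ℤ)` is a sequence of integer polynomials of bounded degree; `atS G j : MvPolynomial σ ℤ` is the `j`-th one.
PROOFS. `eval_atS`: `MvPolynomial.induction_on` (or both sides are ring homomorphisms in `G`: `MvPolynomial.ringHom_ext`).  `eval_ptS`: the same.
`forall_of_seq`: otherwise (`Ultrafilter.eventually_not`, `not_forall`) for `U`-many `j` there is `x_j ∈ S_j` with `¬ Q j x_j`; choose them (an arbitrary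
point for the other `j`: `α` is nonempty because for some `j` there is a point) and apply the hypothesis to this sequence: contradiction.
`van_redI`: `redI` is the span of the `map ψ G` with `map φ G ∈ P` (`Ideal.map`, `Submodule.span_induction`, closed under addition and multiplication
because `eval` is a ring homomorphism); for such a `G`: `φ (fun j => eval (z j) (atS G j)) = eval (ptS φ z) (map φ G) = 0`, so the sequence is zero
for `U`-many `j` (`hK.ker`), so it is divisible by `p_j` for `U`-many `j`, and `eval (ptS ψ z) (map ψ G) = ψ (..) = 0` (`hψ.ker`).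
`exists_lift`: `MvPolynomial.map_surjective`.
`ptS_eq`: `ψ (fun j => z j i) = ψ (fun j => ξ j i)` iff `ψ` of the difference is zero (`hψ.ker`). -/

open MvPolynomial Filter

open scoped BigOperators

namespace Pool.Agent.H62.N6

variable {U : Ultrafilter ℕ} {σ : Type}

/-- the `j`-th polynomial of the sequence `G` -/
noncomputable def atS (G : MvPolynomial σ (ℕ → ℤ)) (j : ℕ) : MvPolynomial σ ℤ :=
  MvPolynomial.map (Pi.evalRingHom (fun _ : ℕ => ℤ) j) G

/-- evaluation of a sequence of polynomials at a sequence of points -/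
theorem eval_ptS {A : Type} [CommRing A] (φ : (ℕ → ℤ) →+* A) (G : MvPolynomial σ (ℕ → ℤ))
    (z : ℕ → σ → ℤ) :
    eval (ptS φ z) (MvPolynomial.map φ G) = φ fun j => eval (z j) (atS G j) := by
  induction G using MvPolynomial.induction_on with
  | C r =>
    rw [MvPolynomial.map_C, eval_C]
    congr 1
    funext j
    unfold atS
    rw [MvPolynomial.map_C, eval_C]
    rfl
  | add p q hp hq =>
    rw [map_add, map_add, hp, hq, ← map_add]
    congr 1
    funext j
    unfold atS
    rw [map_add, map_add]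
    rfl
  | mul_X p i hp =>
    rw [map_mul, map_mul, hp, MvPolynomial.map_X, eval_X]
    unfold ptS
    rw [← map_mul]
    congr 1
    funext j
    unfold atS
    rw [map_mul, map_mul, MvPolynomial.map_X, eval_X]
    rfl

/-- transfer from sequences to `U`-many `j` -/
theorem forall_of_seq {α : Type} (S : ℕ → Finset α) (Q : ℕ → α → Prop)
    (h : ∀ z : ℕ → α, (∀ᶠ j in (U : Filter ℕ), z j ∈ S j) → ∀ᶠ j in (U : Filter ℕ), Q j (z j)) :
    ∀ᶠ j in (U : Filter ℕ), ∀ x ∈ S j, Q j x := by
  classical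
  by_contra hcon
  rw [← Ultrafilter.eventually_not] at hcon
  have hex : ∃ j, ∃ x, x ∈ S j ∧ ¬ Q j x := by
    obtain ⟨j, hj⟩ := hcon.exists
    push Not at hj
    exact ⟨j, hj⟩
  obtain ⟨j0, x0, -, -⟩ := hex
  let z : ℕ → α := fun j => if h : ∃ x, x ∈ S j ∧ ¬ Q j x then h.choose else x0
  have hz : ∀ᶠ j in (U : Filter ℕ), z j ∈ S j ∧ ¬ Q j (z j) := by
    filter_upwards [hcon] with j hj
    push Not at hj
    have h1 : z j = hj.choose := dif_pos hj
    rw [h1]
    exact hj.choose_spec
  have h2 := h z (hz.mono fun j hj => hj.1)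
  obtain ⟨j, hj1, hj2⟩ := (hz.and h2).exists
  exact hj1.2 hj2

theorem ptS_eq {p : ℕ → ℕ} {k : Type} [Field k] {ψ : (ℕ → ℤ) →+* k} (hψ : IsP U p ψ)
    {z ξ : ℕ → σ → ℤ} (h : ∀ᶠ j in (U : Filter ℕ), ∀ i, (p j : ℤ) ∣ z j i - ξ j i) :
    ptS ψ z = ptS ψ ξ := by
  funext i
  have h1 : ψ ((fun j => z j i) - fun j => ξ j i) = 0 := by
    rw [hψ.ker]
    filter_upwards [h] with j hj
    exact hj i
  rw [map_sub, sub_eq_zero] at h1
  exact h1

/-- `VanF` for a polynomial with coefficients in the sequences. -/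
theorem vanF_map_iff {K : Type} [Field K] {φ : (ℕ → ℤ) →+* K} (hK : IsK U φ)
    (S : ℕ → Finset (σ → ℤ)) (G : MvPolynomial σ (ℕ → ℤ)) :
    VanF U φ S (MvPolynomial.map φ G) ↔
      ∀ᶠ j in (U : Filter ℕ), ∀ z ∈ S j, eval z (atS G j) = 0 := by
  constructor
  · intro h
    apply forall_of_seq (U := U) S fun j z => eval z (atS G j) = 0
    intro z hz
    have h1 := h z hz
    rw [eval_ptS, hK.ker] at h1
    exact h1
  · intro h z hz
    rw [eval_ptS, hK.ker]
    filter_upwards [h, hz] with j h1 h2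
    exact h1 _ h2

/-- every polynomial over `K` has a nonzero multiple with coefficients in the sequences -/
theorem exists_clear {K : Type} [Field K] {φ : (ℕ → ℤ) →+* K} (hK : IsK U φ)
    (F : MvPolynomial σ K) :
    ∃ (b : ℕ → ℤ) (G : MvPolynomial σ (ℕ → ℤ)), φ b ≠ 0 ∧
      C (φ b) * F = MvPolynomial.map φ G := by
  classical
  induction F using MvPolynomial.induction_on' with
  | monomial u a =>
    obtain ⟨x, b, hb, hx⟩ := hK.frac a
    refine ⟨b, monomial u x, hb, ?_⟩
    rw [MvPolynomial.map_monomial, C_mul_monomial, ← hx, mul_comm]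
  | add F F' h h' =>
    obtain ⟨b, G, hb, hG⟩ := h
    obtain ⟨b', G', hb', hG'⟩ := h'
    refine ⟨b * b', C b' * G + C b * G', ?_, ?_⟩
    · rw [map_mul]
      exact mul_ne_zero hb hb'
    · rw [map_add, map_mul φ, map_mul (MvPolynomial.map φ), map_mul (MvPolynomial.map φ),
        MvPolynomial.map_C, MvPolynomial.map_C, ← hG, ← hG', C_mul]
      ring

/-- `Pbar` vanishes at the reductions of the points of `S`. -/
theorem van_redI {K : Type} [Field K] {φ : (ℕ → ℤ) →+* K} (hK : IsK U φ) {p : ℕ → ℕ}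
    {k : Type} [Field k] {ψ : (ℕ → ℤ) →+* k} (hψ : IsP U p ψ) {P : Ideal (MvPolynomial σ K)}
    {S : ℕ → Finset (σ → ℤ)} (hV : Van U φ S P) (z : ℕ → σ → ℤ)
    (hz : ∀ᶠ j in (U : Filter ℕ), z j ∈ S j)
    (F : MvPolynomial σ k) (hF : F ∈ redI φ ψ P) : eval (ptS ψ z) F = 0 := by
  unfold redI at hF
  rw [Ideal.mem_map_iff_of_surjective _ (MvPolynomial.map_surjective ψ hψ.surj)] at hF
  obtain ⟨G, hG, rfl⟩ := hF
  rw [eval_ptS]
  have h1 := hV _ (Ideal.mem_comap.mp hG) z hz
  rw [eval_ptS, hK.ker] at h1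
  rw [hψ.ker]
  filter_upwards [h1] with j hj
  rw [hj]
  exact dvd_zero _

end Pool.Agent.H62.N6
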