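import Pool.Agent.H62.N6.F0.Mono
import Pool.Agent.H62.N6.F0.Seq

set_option autoImplicit false

/-! MODULE F0/Red (about 120 lines). MP_4f0605_nt: reduction does not increase the Hilbert function.

PROOF of `exists_primitive`. `a : ι → ℕ → ℤ`, `T : Finset ι`, some `a i` (`i ∈ T`) has `φ (a i) ≠ 0`. For every `j` for which `p_j` is prime and some
`a i j ≠ 0` (`i ∈ T`), let `e_j` be the largest `e` with `p_j^e ∣ a i j` for all `i ∈ T` (`Nat.findGreatest`, or `Finset.inf'` of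
`padicValInt`/`multiplicity`, or: `g_j = Finset.gcd T (a · j)`, `a i j = g_j * a' i j` and `Finset.gcd T (a' · j) = 1`: Mathlib `Finset.extract_gcd`:
simplest: use the full gcd, not only the power of `p`); `s_j = g_j ≠ 0`. For the other `j` put `s_j = 1`, `a' i j = a i j`. Then `a i = s * a' i`
(everywhere), `φ s ≠ 0`, and for `U`-many `j` not all `a' i j` are divisible by `p_j` (their gcd is 1).
By the ultrafilter property (finite `T`) there is `i ∈ T` with `p_j ∤ a' i j` for `U`-many `j`, i.e. `ψ (a' i) ≠ 0` (`Ultrafilter.eventually_exists_mem_iff`,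
or by contradiction: `Filter.eventually_all_finset`).
PROOF of `hF_redI_le`. Take `T` from `exists_mono_basis (redI φ ψ P) D`: `MInd (redI φ ψ P) T`, `card T = hF (redI φ ψ P) D`. By `card_le_hF` it is enough
that `MInd P T`. Let `∑_{m ∈ T} monomial m (c m) ∈ P` with some `c m ≠ 0`. A common denominator (`hK.frac` for every `c m`, product over `T`):
`φ b ≠ 0` and `φ b * c m = φ (a m)`; `exists_primitive`: `a m = s * a' m`, so (multiply by the inverse of `φ s`)
`∑ monomial m (φ (a' m)) ∈ P`, hence `∑ monomial m (ψ (a' m)) ∈ redI φ ψ P` (it is `map ψ` of an element of the comap), so all `ψ (a' m) = 0`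
by `MInd`: contradiction. -/

open MvPolynomial Filter

open scoped BigOperators

namespace Pool.Agent.H62.N6

variable {U : Ultrafilter ℕ} {σ : Type} [Fintype σ] {K : Type} [Field K] {φ : (ℕ → ℤ) →+* K}

theorem exists_primitive (hK : IsK U φ) {p : ℕ → ℕ}
    (hp : ∀ᶠ j in (U : Filter ℕ), (p j).Prime) {k : Type} [Field k] {ψ : (ℕ → ℤ) →+* k}
    (hψ : IsP U p ψ) {ι : Type} (T : Finset ι) (a : ι → ℕ → ℤ)
    (ha : ∃ i ∈ T, φ (a i) ≠ 0) :
    ∃ (s : ℕ → ℤ) (a' : ι → ℕ → ℤ), φ s ≠ 0 ∧ (∀ i ∈ T, a i = s * a' i) ∧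
      ∃ i ∈ T, ψ (a' i) ≠ 0 := by
  classical
  obtain ⟨i0, hi0, hi0'⟩ := ha
  have hTne : T.Nonempty := ⟨i0, hi0⟩
  have hex : ∀ j, ∃ g : ι → ℤ, (∀ b ∈ T, a b j = T.gcd (fun i => a i j) * g b) ∧ T.gcd g = 1 :=
    fun j => Finset.extract_gcd (fun i => a i j) hTne
  choose g hg1 hg2 using hex
  refine ⟨fun j => T.gcd fun i => a i j, fun i j => g j i, ?_, ?_, ?_⟩
  · intro h
    apply hi0'
    rw [hK.ker] at h ⊢
    filter_upwards [h] with j hj
    exact (Finset.gcd_eq_zero_iff.mp hj) i0 hi0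
  · intro i hi
    funext j
    exact hg1 j i hi
  · by_contra hcon
    push Not at hcon
    have h1 : ∀ i ∈ T, ∀ᶠ j in (U : Filter ℕ), (p j : ℤ) ∣ g j i := by
      intro i hi
      exact (hψ.ker _).mp (hcon i hi)
    have h2 := (Filter.eventually_all_finset T).mpr h1
    obtain ⟨j, h3, h4⟩ := (h2.and hp).exists
    have h5 : (p j : ℤ) ∣ T.gcd (g j) := Finset.dvd_gcd h3
    rw [hg2 j] at h5
    have h6 : p j ∣ 1 := by exact_mod_cast h5
    exact h4.one_lt.ne' (Nat.dvd_one.mp h6)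

/-- Reduction does not increase the Hilbert function. -/
theorem hF_redI_le (hK : IsK U φ) {p : ℕ → ℕ} (hp : ∀ᶠ j in (U : Filter ℕ), (p j).Prime)
    {k : Type} [Field k] {ψ : (ℕ → ℤ) →+* k} (hψ : IsP U p ψ)
    (P : Ideal (MvPolynomial σ K)) (D : ℕ) : hF (redI φ ψ P) D ≤ hF P D := by
  classical
  obtain ⟨T, hT1, hT2, hT3, -⟩ := exists_mono_basis (redI φ ψ P) D
  have hcard : T.card = hF (redI φ ψ P) D := by
    rw [← hT3 D le_rfl, Finset.filter_true_of_mem hT1]
  rw [← hcard]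
  apply card_le_hF P D T hT1
  intro c hc
  by_contra hcon
  push Not at hcon
  obtain ⟨m0, hm0, hm0'⟩ := hcon
  -- common denominator
  have hden : ∀ m, ∃ x b : ℕ → ℤ, φ b ≠ 0 ∧ c m * φ b = φ x := fun m => hK.frac (c m)
  choose x b hb hx using hden
  have hprod : ∀ m ∈ T, c m * φ (∏ n ∈ T, b n) = φ (x m * ∏ n ∈ T.erase m, b n) := by
    intro m hm
    rw [← Finset.mul_prod_erase T b hm, map_mul, ← mul_assoc, hx, ← map_mul]
  have hb0 : φ (∏ n ∈ T, b n) ≠ 0 := by
    rw [map_prod]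
    exact Finset.prod_ne_zero_iff.mpr fun n _ => hb n
  obtain ⟨s, a', hs, ha1, i1, hi1, hi1'⟩ := exists_primitive hK hp hψ T
    (fun m => x m * ∏ n ∈ T.erase m, b n) ⟨m0, hm0, by
      rw [← hprod m0 hm0]
      exact mul_ne_zero hm0' hb0⟩
  apply hi1'
  refine hT2 (fun m => ψ (a' m)) ?_ i1 hi1
  unfold redI
  rw [Ideal.mem_map_iff_of_surjective _ (MvPolynomial.map_surjective ψ hψ.surj)]
  refine ⟨∑ m ∈ T, monomial m (a' m), ?_, ?_⟩
  · rw [Ideal.mem_comap, map_sum]
    have h1 : ∑ m ∈ T, MvPolynomial.map φ (monomial m (a' m))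
        = C ((φ s)⁻¹ * φ (∏ n ∈ T, b n)) * ∑ m ∈ T, monomial m (c m) := by
      rw [Finset.mul_sum]
      refine Finset.sum_congr rfl fun m hm => ?_
      rw [MvPolynomial.map_monomial, C_mul_monomial]
      congr 1
      have h2 : φ s * φ (a' m) = c m * φ (∏ n ∈ T, b n) := by
        rw [hprod m hm, ← map_mul, ha1 m hm]
      rw [mul_assoc, mul_comm (φ (∏ n ∈ T, b n)), ← h2, ← mul_assoc, inv_mul_cancel₀ hs, one_mul]
    rw [h1]
    exact P.mul_mem_left _ hc
  · rw [map_sum]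
    exact Finset.sum_congr rfl fun m _ => MvPolynomial.map_monomial _ _ _

end Pool.Agent.H62.N6
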