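import Pool.Agent.H62.N6.BlkH
import Pool.Agent.H62.N6.F0.Red
import Pool.Agent.H62.N6.F0.ClsA
import Pool.Agent.H62.N6.F0.IsP

set_option autoImplicit false

/-! MODULE F0/Cls (about 180 lines). MP_4f0605_nt: the class count.

PROOF of `exists_class`. `exists_isP` gives `k`, `ψ`. Let `Q = redI φ ψ P`; `BigO (hF Q) m` (`hF_redI_le`, `BigO.mono`).
If `Q = ⊤`: no sequence `z` has `z_j ∈ S_j` for `U`-many `j` (`van_redI` for `F = 1`), so `S_j = ∅` for `U`-many `j` (`forall_of_seq` with `Q j x := False`),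
and `C = 0`, any `ξ`.
Otherwise `exists_hasDim Q`: `HasDim Q s`, `s ≤ m` (`HasDim.le_of_bigO`), and `HasDim.noether`: `y : Fin s → MvPolynomial σ k` and monic
`G i ∈ k[Y][T]` with `G i (y, X i) ∈ Q`. Lift: `y l = map ψ (Y l)` (`MvPolynomial.map_surjective`, `hψ.surj`); `G i = (lift of G i)` with a monic lift
`Gh i ∈ (ℕ → ℤ)[Y_1..Y_s][T]` of the same degree (`Polynomial.lifts_and_degree_eq_and_monic`, or write `G i = T^d + ∑_{e<d} c_e T^e` and lift the `c_e`).
Let `H i = (Gh i) (Y, X i) ∈ MvPolynomial σ (ℕ → ℤ)`, `map ψ (H i) = G i (y, X i) ∈ Q`. For every sequence `z` in `S`: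
`0 = eval (ptS ψ z) (map ψ (H i)) = ψ (fun j => eval (z j) (atS (H i) j))` (`van_redI`, `eval_ptS`), so `p_j ∣ eval (z j) (atS (H i) j)`;
`forall_of_seq`: for `U`-many `j` and all `z ∈ S_j`, all `i`: `p_j ∣ eval z (atS (H i) j)`. For such a `j` with `p_j` prime, let `F = ZMod (p j)`, `Z` = image of
`S_j` under `z ↦ (fun i => (z i : ZMod (p j)))`; `card_le_of_monic` with `y zbar l = eval zbar (map (Int.castRingHom _) (atS (Y l) j))`,
`g w i` = the polynomial `Gh i` reduced (first to index `j`, then mod `p_j`) with `Y := w` (monic of degree at most `d i = (G i).natDegree`):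
`card Z ≤ C p_j^s ≤ C p_j^m`, `C = ∏ d i` independent of `j`. Then `exists_fibre` gives a point `x_j ∈ S_j` (if `S_j ≠ ∅`) with
`card S_j ≤ C p_j^m * card {z : zbar = xbar}`, and `zbar = xbar` iff `p_j ∣ z i - x i` for all `i` (`ZMod.intCast_eq_intCast_iff_dvd_sub`,
`ZMod.intCast_zmod_eq_zero_iff..`); `ξ j = x_j`. -/

open MvPolynomial Filter

open scoped BigOperators

namespace Pool.Agent.H62.N6

variable {U : Ultrafilter ℕ} {σ : Type} [Fintype σ] {K : Type} [Field K] {φ : (ℕ → ℤ) →+* K}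

private theorem Cls_atS_eval (s : ℕ) (Y : Fin s → MvPolynomial σ (ℕ → ℤ))
    (G : Polynomial (MvPolynomial (Fin s) (ℕ → ℤ))) (i : σ) (j : ℕ) (z : σ → ℤ) :
    eval z (atS ((G.map (eval₂Hom C Y)).eval (X i)) j) =
      ((G.map (eval₂Hom (Pi.evalRingHom (fun _ : ℕ => ℤ) j)
        fun l => eval z (atS (Y l) j))).eval (z i)) := by
  have h1 : eval z (atS ((G.map (eval₂Hom C Y)).eval (X i)) j) =
      ((eval z).comp (MvPolynomial.map (Pi.evalRingHom (fun _ : ℕ => ℤ) j)))
        ((G.map (eval₂Hom C Y)).eval (X i)) := rfl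
  rw [h1, Polynomial.eval_map, Polynomial.hom_eval₂, Polynomial.eval_map]
  have h2 : ((eval z).comp (MvPolynomial.map (Pi.evalRingHom (fun _ : ℕ => ℤ) j))) (X i) =
      z i := by simp
  rw [h2]
  congr 1
  refine MvPolynomial.ringHom_ext ?_ ?_
  · intro a
    simp
  · intro l
    simp [atS]

private theorem Cls_map_psi {k : Type} [Field k] (ψ : (ℕ → ℤ) →+* k) (s : ℕ)
    (Y : Fin s → MvPolynomial σ (ℕ → ℤ)) (y : Fin s → MvPolynomial σ k)
    (hY : ∀ l, MvPolynomial.map ψ (Y l) = y l)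
    (G : Polynomial (MvPolynomial (Fin s) (ℕ → ℤ)))
    (Gk : Polynomial (MvPolynomial (Fin s) k)) (hG : G.map (MvPolynomial.map ψ) = Gk) (i : σ) :
    MvPolynomial.map ψ ((G.map (eval₂Hom C Y)).eval (X i)) =
      (Gk.map (aeval y : MvPolynomial (Fin s) k →ₐ[k] MvPolynomial σ k).toRingHom).eval (X i) := by
  subst hG
  rw [Polynomial.eval_map, Polynomial.hom_eval₂, Polynomial.eval_map, Polynomial.eval₂_map,
    MvPolynomial.map_X]
  congr 1
  refine MvPolynomial.ringHom_ext ?_ ?_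
  · intro a
    simp
  · intro l
    simp [hY]

/-- the residues of the points of `S j` satisfy monic equations over `s ≤ m` of them (finite form) -/
theorem exists_equations (hK : IsK U φ) {p : ℕ → ℕ}
    (hp : ∀ᶠ j in (U : Filter ℕ), (p j).Prime)
    {P : Ideal (MvPolynomial σ K)} {m : ℕ} (hb : BigO (hF P) m) {S : ℕ → Finset (σ → ℤ)}
    (hV : Van U φ S P) (hne : ∀ᶠ j in (U : Filter ℕ), (S j).Nonempty) :
    ∃ (s : ℕ) (Y : Fin s → MvPolynomial σ (ℕ → ℤ))
      (G : σ → Polynomial (MvPolynomial (Fin s) (ℕ → ℤ))),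
      s ≤ m ∧ (∀ i, (G i).Monic) ∧
      ∀ᶠ j in (U : Filter ℕ), ∀ z ∈ S j, ∀ i,
        (p j : ℤ) ∣ ((G i).map (eval₂Hom (Pi.evalRingHom (fun _ : ℕ => ℤ) j)
          fun l => eval z (atS (Y l) j))).eval (z i) := by
  classical
  obtain ⟨k, _, ψ, hψ⟩ := exists_isP U p hp
  have hbQ : BigO (hF (redI φ ψ P)) m := hb.mono (hF_redI_le hK hp hψ P)
  have hQ : redI φ ψ P ≠ ⊤ := by
    intro htop
    have hz : ∀ᶠ j in (U : Filter ℕ),
        (fun j => if h : (S j).Nonempty then h.choose else 0 : ℕ → σ → ℤ) j ∈ S j := by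
      filter_upwards [hne] with j hj
      simp only [dif_pos hj]
      exact hj.choose_spec
    have h1 := van_redI hK hψ hV _ hz 1 (by rw [htop]; exact Submodule.mem_top)
    simp at h1
  obtain ⟨s, hs⟩ := exists_hasDim (redI φ ψ P) hQ
  obtain ⟨y, -, hG⟩ := hs.noether
  choose Gk hmon hmem using hG
  have hYs : ∀ l, ∃ Y : MvPolynomial σ (ℕ → ℤ), MvPolynomial.map ψ Y = y l := fun l =>
    MvPolynomial.map_surjective ψ hψ.surj (y l)
  choose Y hY using hYs
  have hGs : ∀ i, ∃ G : Polynomial (MvPolynomial (Fin s) (ℕ → ℤ)),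
      G.map (MvPolynomial.map ψ) = Gk i ∧ G.Monic := by
    intro i
    have hl : Gk i ∈ Polynomial.lifts (MvPolynomial.map ψ :
        MvPolynomial (Fin s) (ℕ → ℤ) →+* MvPolynomial (Fin s) k) := by
      obtain ⟨q, hq⟩ := Polynomial.map_surjective (MvPolynomial.map ψ :
        MvPolynomial (Fin s) (ℕ → ℤ) →+* MvPolynomial (Fin s) k)
        (MvPolynomial.map_surjective ψ hψ.surj) (Gk i)
      rw [Polynomial.mem_lifts]
      exact ⟨q, hq⟩
    obtain ⟨q, hq1, -, hq2⟩ := Polynomial.lifts_and_natDegree_eq_and_monic hl (hmon i)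
    exact ⟨q, hq1, hq2⟩
  choose G hG1 hG2 using hGs
  refine ⟨s, Y, G, hs.le_of_bigO hbQ, hG2, ?_⟩
  refine forall_of_seq S (fun j z => ∀ i,
        (p j : ℤ) ∣ ((G i).map (eval₂Hom (Pi.evalRingHom (fun _ : ℕ => ℤ) j)
          fun l => eval z (atS (Y l) j))).eval (z i)) ?_
  intro z hz
  rw [Filter.eventually_all]
  intro i
  have h1 := van_redI hK hψ hV z hz _ (hmem i)
  rw [← Cls_map_psi ψ s Y y hY (G i) (Gk i) (hG1 i) i, eval_ptS, hψ.ker] at h1
  filter_upwards [h1] with j hj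
  rwa [Cls_atS_eval] at hj

private theorem Cls_cast_eval {F : Type} [Field F] (z : σ → ℤ) (q : MvPolynomial σ ℤ) :
    Int.castRingHom F (eval z q) =
      eval (fun i => ((z i : ℤ) : F)) (MvPolynomial.map (Int.castRingHom F) q) := by
  have h : (Int.castRingHom F).comp (eval z) =
      (eval (fun i => ((z i : ℤ) : F))).comp (MvPolynomial.map (Int.castRingHom F)) := by
    refine MvPolynomial.ringHom_ext ?_ ?_
    · intro a
      simp
    · intro l
      simp
  exact RingHom.congr_fun h q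

private theorem Cls_step (s m : ℕ) (hsm : s ≤ m) (Y : Fin s → MvPolynomial σ (ℕ → ℤ))
    (G : σ → Polynomial (MvPolynomial (Fin s) (ℕ → ℤ))) (hmon : ∀ i, (G i).Monic) (j q : ℕ)
    (hq : q.Prime) (S : Finset (σ → ℤ)) (hS : S.Nonempty)
    (hdiv : ∀ z ∈ S, ∀ i,
        (q : ℤ) ∣ ((G i).map (eval₂Hom (Pi.evalRingHom (fun _ : ℕ => ℤ) j)
          fun l => eval z (atS (Y l) j))).eval (z i)) :
    ∃ x : σ → ℤ, S.card ≤ (∏ i, (G i).natDegree) * q ^ m *
      (S.filter fun z => ∀ i, (q : ℤ) ∣ z i - x i).card := by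
  classical
  have : Fact q.Prime := ⟨hq⟩
  let bar : (σ → ℤ) → (σ → ZMod q) := fun z i => (z i : ZMod q)
  let y : (σ → ZMod q) → Fin s → ZMod q := fun w l =>
    eval w (MvPolynomial.map (Int.castRingHom (ZMod q)) (atS (Y l) j))
  let g : (Fin s → ZMod q) → σ → Polynomial (ZMod q) := fun w i =>
    (G i).map (eval₂Hom ((Int.castRingHom (ZMod q)).comp (Pi.evalRingHom (fun _ : ℕ => ℤ) j)) w)
  have h1 : (S.image bar).card ≤ (∏ i, (G i).natDegree) * Fintype.card (ZMod q) ^ s := by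
    refine card_le_of_monic (S.image bar) s y (fun i => (G i).natDegree) g
      (fun w i => (hmon i).map _) (fun w i => Polynomial.natDegree_map_le) ?_
    intro zb hzb i
    obtain ⟨z, hz, rfl⟩ := Finset.mem_image.mp hzb
    have h2 := hdiv z hz i
    have h3 : (Int.castRingHom (ZMod q)) (((G i).map (eval₂Hom
        (Pi.evalRingHom (fun _ : ℕ => ℤ) j)
          fun l => eval z (atS (Y l) j))).eval (z i)) = 0 := by
      rw [eq_intCast, ZMod.intCast_zmod_eq_zero_iff_dvd]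
      exact h2
    rw [Polynomial.eval_map, Polynomial.hom_eval₂] at h3
    rw [← h3]
    change (Polynomial.map _ (G i)).eval (bar z i) = _
    rw [Polynomial.eval_map]
    have h4 : bar z i = (Int.castRingHom (ZMod q)) (z i) := rfl
    rw [h4]
    congr 1
    refine MvPolynomial.ringHom_ext ?_ ?_
    · intro a
      simp
    · intro l
      have h5 := Cls_cast_eval (F := ZMod q) z (atS (Y l) j)
      simp only [coe_eval₂Hom, eval₂_X, RingHom.comp_apply]
      exact h5.symm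
  rw [ZMod.card] at h1
  have h6 : (S.image bar).card ≤ (∏ i, (G i).natDegree) * q ^ m :=
    h1.trans (Nat.mul_le_mul_left _ (Nat.pow_le_pow_right hq.pos hsm))
  obtain ⟨x, -, hx2⟩ := exists_fibre S bar _ h6 hS
  refine ⟨x, hx2.trans (Nat.mul_le_mul_left _ (Finset.card_le_card ?_))⟩
  intro z hz
  rw [Finset.mem_filter] at hz ⊢
  refine ⟨hz.1, fun i => ?_⟩
  have h7 : ((z i : ℤ) : ZMod q) = ((x i : ℤ) : ZMod q) := congrFun hz.2 i
  exact (ZMod.intCast_eq_intCast_iff_dvd_sub (x i) (z i) q).mp h7.symm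

/-- CLASS COUNT: some residue class modulo `p_j` contains a proportion `≥ 1/(C p_j^m)` of the points. -/
theorem exists_class (hK : IsK U φ) {p : ℕ → ℕ} (hp : ∀ᶠ j in (U : Filter ℕ), (p j).Prime)
    {P : Ideal (MvPolynomial σ K)} {m : ℕ} (hb : BigO (hF P) m) {S : ℕ → Finset (σ → ℤ)}
    (hV : Van U φ S P) :
    ∃ (C : ℕ) (ξ : ℕ → σ → ℤ), ∀ᶠ j in (U : Filter ℕ),
      (S j).card ≤ C * (p j) ^ m *
        ((S j).filter fun z => ∀ i, (p j : ℤ) ∣ z i - ξ j i).card := by
  classical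
  by_cases hne : ∀ᶠ j in (U : Filter ℕ), (S j).Nonempty
  · obtain ⟨s, Y, G, hsm, hmon, hdiv⟩ := exists_equations hK hp hb hV hne
    have key : ∀ᶠ j in (U : Filter ℕ), ∃ x : σ → ℤ,
        (S j).card ≤ (∏ i, (G i).natDegree) * (p j) ^ m *
          ((S j).filter fun z => ∀ i, (p j : ℤ) ∣ z i - x i).card := by
      filter_upwards [hne, hp, hdiv] with j h1 h2 h3
      exact Cls_step s m hsm Y G hmon j (p j) h2 (S j) h1 h3
    refine ⟨∏ i, (G i).natDegree, fun j => if h : (∃ x : σ → ℤ,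
        (S j).card ≤ (∏ i, (G i).natDegree) * (p j) ^ m *
          ((S j).filter fun z => ∀ i, (p j : ℤ) ∣ z i - x i).card) then h.choose else 0, ?_⟩
    filter_upwards [key] with j hj
    simp only [dif_pos hj]
    exact hj.choose_spec
  · refine ⟨0, fun _ => 0, ?_⟩
    have h1 := Ultrafilter.eventually_not.mpr hne
    filter_upwards [h1] with j hj
    rw [Finset.not_nonempty_iff_eq_empty] at hj
    simp [hj]

end Pool.Agent.H62.N6
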