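import Pool.Agent.H62.N6.Defs

set_option autoImplicit false

/-! MODULE F0/Prs (about 130 lines). MP_4f0605_nt: prime supply by Bertrand's postulate.

PROOF of `exists_prime_seq`. Put `x = ⌈B_j^β⌉₊ ≥ 1` and `M = T + L.length`. For `i < M` there is a prime `r_i` with `2^(2i) x < r_i ≤ 2^(2i+1) x`
(Mathlib `Nat.exists_prime_lt_and_le_two_mul`; `x ≥ 1`), so `r_0 < r_1 < ... ` and `r_i ≤ 2^(2M) x ≤ 2^(2M) · 2 B_j^β` (`B_j^β ≥ 1` for `B_j ≥ 1`).
At most `L.length` of them are in `{c j : c ∈ L}`, so at least `T` remain: choose an injection `Fin T → {i < M : r_i ∉ {c j}}`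
(`Finset.exists_subset_card_eq`, `Finset.orderEmbOfFin`/`Fintype.card` comparison). For `j` with `B_j = 0` choose anything.
All statements hold for all `j` with `B_j ≥ 1`, which are `U`-many (`hB.eventually_ge_atTop 1`). -/

open Filter

namespace Pool.Agent.H62.N6

variable {U : Ultrafilter ℕ}

/-- finite form: `T` primes in `[x, C x]` outside a finite set with `n` elements -/
theorem exists_primes_fin (T n : ℕ) :
    ∃ C : ℕ, ∀ (x : ℕ), 1 ≤ x → ∀ A : Finset ℕ, A.card ≤ n →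
      ∃ q : Fin T → ℕ, Function.Injective q ∧
        ∀ i, (q i).Prime ∧ x ≤ q i ∧ q i ≤ C * x ∧ q i ∉ A := by
  classical
  refine ⟨2 ^ (2 * (T + n)), fun x hx A hA => ?_⟩
  have hp : ∀ i : ℕ, ∃ p : ℕ, p.Prime ∧ 2 ^ (2 * i) * x < p ∧ p ≤ 2 * (2 ^ (2 * i) * x) := fun i =>
    Nat.exists_prime_lt_and_le_two_mul (2 ^ (2 * i) * x) (by positivity)
  choose r hr1 hr2 hr3 using hp
  have hmono : StrictMono r := by
    refine strictMono_nat_of_lt_succ fun i => ?_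
    have h1 := hr3 i
    have h2 := hr2 (i + 1)
    have h3 : 2 ^ (2 * (i + 1)) * x = 4 * (2 ^ (2 * i) * x) := by
      rw [Nat.mul_add, Nat.pow_add]
      ring
    omega
  set R : Finset ℕ := (Finset.range (T + n)).image r with hR
  have hRc : R.card = T + n := by
    rw [hR, Finset.card_image_of_injective _ hmono.injective, Finset.card_range]
  have hT : T ≤ (R \ A).card := by
    have h1 := Finset.le_card_sdiff A R
    omega
  obtain ⟨S, hS, hSc⟩ := Finset.exists_subset_card_eq hT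
  refine ⟨S.orderEmbOfFin hSc, (S.orderEmbOfFin hSc).injective, fun i => ?_⟩
  have h1 := hS (Finset.orderEmbOfFin_mem S hSc i)
  rw [Finset.mem_sdiff, hR, Finset.mem_image] at h1
  obtain ⟨⟨k, hk, hk2⟩, h2⟩ := h1
  rw [Finset.mem_range] at hk
  rw [← hk2] at h2 ⊢
  refine ⟨hr1 k, ?_, ?_, h2⟩
  · have h3 := hr2 k
    have h4 : 1 * x ≤ 2 ^ (2 * k) * x := Nat.mul_le_mul_right x Nat.one_le_two_pow
    omega
  · have h3 := hr3 k
    have h4 : 2 * (2 ^ (2 * k) * x) = 2 ^ (2 * k + 1) * x := by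
      rw [Nat.pow_succ]
      ring
    rw [h4] at h3
    refine h3.trans (Nat.mul_le_mul_right x (Nat.pow_le_pow_right (by norm_num) ?_))
    omega

/-- Prime supply (Bertrand): `T` sequences of primes of size about `B^β`, different from each other and from given ones. -/
theorem exists_primes {B : ℕ → ℕ} (hB : Tendsto B (U : Filter ℕ) atTop) (β : ℝ) (hβ : 0 < β)
    (L : List (ℕ → ℕ)) (T : ℕ) :
    ∃ (C : ℝ) (q : Fin T → ℕ → ℕ), (∀ i, ∀ᶠ j in (U : Filter ℕ), (q i j).Prime ∧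
        (B j : ℝ) ^ β ≤ (q i j : ℝ) ∧ (q i j : ℝ) ≤ C * (B j : ℝ) ^ β) ∧
      (∀ i i', i ≠ i' → ∀ᶠ j in (U : Filter ℕ), q i j ≠ q i' j) ∧
      ∀ i, ∀ c ∈ L, ∀ᶠ j in (U : Filter ℕ), q i j ≠ c j := by
  classical
  obtain ⟨C, hC⟩ := exists_primes_fin T L.length
  have hex : ∀ j : ℕ, ∃ q : Fin T → ℕ, 1 ≤ B j → Function.Injective q ∧
      ∀ i, (q i).Prime ∧ ⌈(B j : ℝ) ^ β⌉₊ ≤ q i ∧ q i ≤ C * ⌈(B j : ℝ) ^ β⌉₊ ∧
        q i ∉ (L.map fun c => c j).toFinset := by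
    intro j
    by_cases hj : 1 ≤ B j
    · have hB1 : (1 : ℝ) ≤ (B j : ℝ) := by exact_mod_cast hj
      have hx : 1 ≤ ⌈(B j : ℝ) ^ β⌉₊ := by
        rw [Nat.one_le_ceil_iff]
        exact Real.rpow_pos_of_pos (by linarith) β
      obtain ⟨q, h1, h2⟩ := hC _ hx (L.map fun c => c j).toFinset (by
        refine (List.toFinset_card_le _).trans ?_
        rw [List.length_map])
      exact ⟨q, fun _ => ⟨h1, h2⟩⟩
    · exact ⟨fun _ => 0, fun h => absurd h hj⟩
  choose Q hQ using hex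
  have hev := hB.eventually_ge_atTop 1
  refine ⟨2 * C, fun i j => Q j i, fun i => ?_, fun i i' hne => ?_, fun i c hc => ?_⟩
  · filter_upwards [hev] with j hj
    obtain ⟨h1, h2⟩ := hQ j hj
    obtain ⟨h3, h4, h5, -⟩ := h2 i
    have hB1 : (1 : ℝ) ≤ (B j : ℝ) := by exact_mod_cast hj
    have hpow : (1 : ℝ) ≤ (B j : ℝ) ^ β := Real.one_le_rpow hB1 hβ.le
    refine ⟨h3, (Nat.le_ceil _).trans (by exact_mod_cast h4), ?_⟩
    have h6 : ((Q j i : ℕ) : ℝ) ≤ C * (⌈(B j : ℝ) ^ β⌉₊ : ℝ) := by exact_mod_cast h5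
    have h7 : ((⌈(B j : ℝ) ^ β⌉₊ : ℕ) : ℝ) ≤ 2 * (B j : ℝ) ^ β := by
      have := (Nat.ceil_lt_add_one (zero_le_one.trans hpow)).le
      linarith
    calc ((Q j i : ℕ) : ℝ) ≤ C * (⌈(B j : ℝ) ^ β⌉₊ : ℝ) := h6
      _ ≤ C * (2 * (B j : ℝ) ^ β) := mul_le_mul_of_nonneg_left h7 (Nat.cast_nonneg C)
      _ = 2 * C * (B j : ℝ) ^ β := by ring
  · filter_upwards [hev] with j hj
    intro h
    exact hne ((hQ j hj).1 h)
  · filter_upwards [hev] with j hj
    intro h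
    have h2 := ((hQ j hj).2 i).2.2.2
    apply h2
    rw [List.mem_toFinset, List.mem_map]
    exact ⟨c, hc, h.symm⟩

end Pool.Agent.H62.N6
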