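import Pool.Agent.H62.N6.F0.Cls
import Pool.Agent.H62.N6.F0.Prs

set_option autoImplicit false

/-! MODULE F0/Expo (about 90 lines). MP_4f0605_nt: the trivial bound by the dimension.

PROOF of `expo_of_bigO`. For every `j` choose a prime `p_j` with `B_j < p_j ≤ 2 B_j + 2` (`Nat.exists_prime_lt_and_le_two_mul (B_j + 1)`).
`exists_class`: `card S_j ≤ C p_j^m * card (one class)`. Two points of `S_j ⊆ [0, B_j]^σ` in one class modulo `p_j > B_j` are equal
(`|z i - z' i| ≤ B_j < p_j` and `p_j ∣ z i - z' i`: `Int.eq_zero_of_abs_lt_dvd`), so the class has at most one point: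
`card S_j ≤ C (2 B_j + 2)^m ≤ C 4^m B_j^m ≤ B_j^(m+e)` for `U`-many `j` (`B_j ≥ 1`, and `C 4^m ≤ B_j^e` eventually because `B → ∞`, `e > 0`).
`expo_mul`: `card S_j ≤ C B_j^b card S'_j` for `U`-many `j` and `Expo S' a` imply `Expo S (a + b)`. -/

open MvPolynomial Filter

namespace Pool.Agent.H62.N6

variable {U : Ultrafilter ℕ} {σ : Type}

/-- `C ≤ B_j^e` for `U`-many `j` -/
theorem const_le_rpow {B : ℕ → ℕ} (hB : Tendsto B (U : Filter ℕ) atTop) (C e : ℝ) (he : 0 < e) :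
    ∀ᶠ j in (U : Filter ℕ), 1 ≤ B j ∧ C ≤ (B j : ℝ) ^ e := by
  have h1 : Tendsto (fun j => (B j : ℝ) ^ e) (U : Filter ℕ) atTop :=
    (tendsto_rpow_atTop he).comp (tendsto_natCast_atTop_atTop.comp hB)
  filter_upwards [hB.eventually_ge_atTop 1, h1.eventually_ge_atTop C] with j h2 h3
  exact ⟨h2, h3⟩

theorem expo_mono {B : ℕ → ℕ} (hB : Tendsto B (U : Filter ℕ) atTop)
    {S : ℕ → Finset (σ → ℤ)} {a b : ℝ} (hab : a ≤ b) (h : Expo U B S a) : Expo U B S b := by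
  intro e he
  filter_upwards [h e he, const_le_rpow hB 1 e he] with j h1 h2
  have hB1 : (1 : ℝ) ≤ (B j : ℝ) := by exact_mod_cast h2.1
  exact h1.trans (Real.rpow_le_rpow_of_exponent_le hB1 (by linarith))

theorem expo_mul {B : ℕ → ℕ} (hB : Tendsto B (U : Filter ℕ) atTop)
    {S S' : ℕ → Finset (σ → ℤ)} {a b C : ℝ} (h : Expo U B S' a)
    (hle : ∀ᶠ j in (U : Filter ℕ), ((S j).card : ℝ) ≤ C * (B j : ℝ) ^ b * ((S' j).card : ℝ)) :
    Expo U B S (a + b) := by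
  intro e he
  filter_upwards [h (e / 2) (by linarith), const_le_rpow hB C (e / 2) (by linarith), hle]
    with j h1 h2 h3
  have hB1 : (1 : ℝ) ≤ (B j : ℝ) := by exact_mod_cast h2.1
  have hB0 : (0 : ℝ) < (B j : ℝ) := by linarith
  have hb0 : (0 : ℝ) ≤ (B j : ℝ) ^ b := Real.rpow_nonneg hB0.le b
  have hs0 : (0 : ℝ) ≤ ((S' j).card : ℝ) := Nat.cast_nonneg _
  calc ((S j).card : ℝ) ≤ C * (B j : ℝ) ^ b * ((S' j).card : ℝ) := h3
    _ ≤ (B j : ℝ) ^ (e / 2) * (B j : ℝ) ^ b * ((S' j).card : ℝ) :=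
        mul_le_mul_of_nonneg_right (mul_le_mul_of_nonneg_right h2.2 hb0) hs0
    _ ≤ (B j : ℝ) ^ (e / 2) * (B j : ℝ) ^ b * (B j : ℝ) ^ (a + e / 2) :=
        mul_le_mul_of_nonneg_left h1 (mul_nonneg (Real.rpow_nonneg hB0.le _) hb0)
    _ = (B j : ℝ) ^ (a + b + e) := by
        rw [← Real.rpow_add hB0, ← Real.rpow_add hB0]
        congr 1
        ring

/-- finite unions -/
theorem expo_union {B : ℕ → ℕ} (hB : Tendsto B (U : Filter ℕ) atTop) {ι : Type} (T : Finset ι)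
    {S : ℕ → Finset (σ → ℤ)} (S' : ι → ℕ → Finset (σ → ℤ)) {a : ℝ}
    (h : ∀ i ∈ T, Expo U B (S' i) a)
    (hle : ∀ᶠ j in (U : Filter ℕ), (S j).card ≤ ∑ i ∈ T, (S' i j).card) :
    Expo U B S a := by
  intro e he
  have hall : ∀ᶠ j in (U : Filter ℕ), ∀ i ∈ T,
      ((S' i j).card : ℝ) ≤ (B j : ℝ) ^ (a + e / 2) :=
    (Filter.eventually_all_finset T).2 fun i hi => h i hi (e / 2) (by linarith)
  filter_upwards [hall, const_le_rpow hB (T.card : ℝ) (e / 2) (by linarith), hle]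
    with j h1 h2 h3
  have hB1 : (1 : ℝ) ≤ (B j : ℝ) := by exact_mod_cast h2.1
  have hB0 : (0 : ℝ) < (B j : ℝ) := by linarith
  have h4 : ((S j).card : ℝ) ≤ ∑ i ∈ T, ((S' i j).card : ℝ) := by exact_mod_cast h3
  calc ((S j).card : ℝ) ≤ ∑ i ∈ T, ((S' i j).card : ℝ) := h4
    _ ≤ ∑ _i ∈ T, (B j : ℝ) ^ (a + e / 2) := Finset.sum_le_sum h1
    _ = (T.card : ℝ) * (B j : ℝ) ^ (a + e / 2) := by rw [Finset.sum_const, nsmul_eq_mul]
    _ ≤ (B j : ℝ) ^ (e / 2) * (B j : ℝ) ^ (a + e / 2) :=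
        mul_le_mul_of_nonneg_right h2.2 (Real.rpow_nonneg hB0.le _)
    _ = (B j : ℝ) ^ (a + e) := by
        rw [← Real.rpow_add hB0]
        congr 1
        ring

/-- Trivial bound by the dimension (a prime larger than `B`). -/
theorem expo_of_bigO [Fintype σ] {K : Type} [Field K] {φ : (ℕ → ℤ) →+* K} {B : ℕ → ℕ}
    (hB : Tendsto B (U : Filter ℕ) atTop) (hK : IsK U φ)
    {P : Ideal (MvPolynomial σ K)} {m : ℕ} (hb : BigO (hF P) m) {S : ℕ → Finset (σ → ℤ)}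
    (hV : Van U φ S P) (hbox : InBox B S) : Expo U B S m := by
  classical
  choose p hp1 hp2 hp3 using fun j => Nat.exists_prime_lt_and_le_two_mul (B j + 1)
    (Nat.succ_ne_zero _)
  obtain ⟨C, ξ, hC⟩ := exists_class hK (Eventually.of_forall hp1) hb hV
  intro e he
  filter_upwards [hC, const_le_rpow hB ((C : ℝ) * 4 ^ m) e he] with j h1 h2
  have hB1 : (1 : ℝ) ≤ (B j : ℝ) := by exact_mod_cast h2.1
  have hB0 : (0 : ℝ) < (B j : ℝ) := by linarith
  have h3 : ((S j).filter fun z => ∀ i, (p j : ℤ) ∣ z i - ξ j i).card ≤ 1 := by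
    refine Finset.card_le_one.2 fun z hz z' hz' => ?_
    rw [Finset.mem_filter] at hz hz'
    funext i
    have h4 : (p j : ℤ) ∣ z i - z' i := by
      have h5 := dvd_sub (hz.2 i) (hz'.2 i)
      have h6 : z i - ξ j i - (z' i - ξ j i) = z i - z' i := by ring
      rwa [h6] at h5
    have h7 := hbox j z hz.1 i
    have h8 := hbox j z' hz'.1 i
    have h9 : (B j : ℤ) + 1 < p j := by exact_mod_cast hp2 j
    have h10 : |z i - z' i| < (p j : ℤ) := by
      rw [abs_lt]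
      constructor <;> linarith [h7.1, h7.2, h8.1, h8.2]
    have h11 := Int.eq_zero_of_abs_lt_dvd h4 h10
    linarith
  have h4 : (S j).card ≤ C * (4 * B j) ^ m := by
    calc (S j).card ≤ C * (p j) ^ m *
        ((S j).filter fun z => ∀ i, (p j : ℤ) ∣ z i - ξ j i).card := h1
      _ ≤ C * (p j) ^ m * 1 := Nat.mul_le_mul_left _ h3
      _ = C * (p j) ^ m := by rw [mul_one]
      _ ≤ C * (4 * B j) ^ m := by
          refine Nat.mul_le_mul_left _ (Nat.pow_le_pow_left ?_ m)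
          have := hp3 j
          have := h2.1
          omega
  calc ((S j).card : ℝ) ≤ (C : ℝ) * (4 * (B j : ℝ)) ^ m := by exact_mod_cast h4
    _ = ((C : ℝ) * 4 ^ m) * (B j : ℝ) ^ m := by rw [mul_pow]; ring
    _ ≤ (B j : ℝ) ^ e * (B j : ℝ) ^ m := mul_le_mul_of_nonneg_right h2.2 (by positivity)
    _ = (B j : ℝ) ^ ((m : ℝ) + e) := by
        rw [← Real.rpow_natCast (B j : ℝ) m, ← Real.rpow_add hB0, add_comm]

end Pool.Agent.H62.N6
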