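import Pool.Agent.H62.N6.Defs

set_option autoImplicit false

/-! MODULE F0/Lim (about 90 lines). MP_4f0605_nt: the liminf of a Hilbert function.

PROOF of `exists_isLim`. Let `A = {d : ℝ | LowB h r d}`. `c ∈ A` (`c (D+1)^r ≥ (c - e) D^r`), `A` is bounded above by `2^r C` (if `d ∈ A`, then for large
`n ≥ 1`: `(d - e) n^r ≤ h n ≤ C (n+1)^r ≤ C 2^r n^r`), so `c' = sSup A ≥ c > 0`. `LowB h r c'`: for `e > 0` there is `d ∈ A` with `d > c' - e/2`, use
`LowB h r d` with `e/2`. The frequently part: if `∀ᶠ n, h n > (c' + e) n^r` then `LowB h r (c' + e)`, so `c' + e ≤ c'`: contradiction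
(`Filter.not_eventually`).
PROOF of `le_of_lowB`. For every `e > 0`: eventually `(d - e) n^r ≤ h' n ≤ h n`, frequently `h n ≤ (c + e) n^r`; for such an `n ≥ 1`:
`d - e ≤ c + e`; `le_of_forall_pos_le_add`. -/

open Filter

namespace Pool.Agent.H62.N6

/-- existence of the liminf -/
theorem exists_isLim {h : ℕ → ℕ} {r : ℕ} (hb : BigO h r)
    (hl : ∃ c : ℝ, 0 < c ∧ ∀ D : ℕ, c * ((D : ℝ) + 1) ^ r ≤ (h D : ℝ)) :
    ∃ c : ℝ, 0 < c ∧ IsLim h r c := by
  obtain ⟨C, hC⟩ := hb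
  obtain ⟨c, hc, hl⟩ := hl
  have hpow : ∀ n : ℕ, 1 ≤ n → (0 : ℝ) < (n : ℝ) ^ r := by
    intro n hn
    have h1 : (0 : ℝ) < n := by exact_mod_cast hn
    positivity
  have hC0 : 0 ≤ C := by
    have h1 := hC 0
    have h2 : (0 : ℝ) ≤ (h 0 : ℝ) := Nat.cast_nonneg _
    simp only [Nat.cast_zero, zero_add, one_pow, mul_one] at h1
    linarith
  have hcA : LowB h r c := by
    intro e he
    refine Eventually.of_forall (fun n => ?_)
    have h1 : (n : ℝ) ^ r ≤ ((n : ℝ) + 1) ^ r := by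
      have h2 : (0 : ℝ) ≤ n := Nat.cast_nonneg n
      gcongr
      linarith
    have h3 : (0 : ℝ) ≤ (n : ℝ) ^ r := by positivity
    nlinarith [hl n]
  have hbd : ∀ d : ℝ, LowB h r d → d ≤ 2 ^ r * C := by
    intro d hd
    refine le_of_forall_pos_le_add (fun e he => ?_)
    obtain ⟨n, hn1, hn2⟩ := ((hd e he).and (eventually_ge_atTop 1)).exists
    have h1 : ((n : ℝ) + 1) ^ r ≤ 2 ^ r * (n : ℝ) ^ r := by
      rw [← mul_pow]
      have h2 : (1 : ℝ) ≤ n := by exact_mod_cast hn2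
      gcongr
      linarith
    have h3 : (d - e) * (n : ℝ) ^ r ≤ (2 ^ r * C) * (n : ℝ) ^ r :=
      calc (d - e) * (n : ℝ) ^ r ≤ (h n : ℝ) := hn1
        _ ≤ C * ((n : ℝ) + 1) ^ r := hC n
        _ ≤ C * (2 ^ r * (n : ℝ) ^ r) := mul_le_mul_of_nonneg_left h1 hC0
        _ = (2 ^ r * C) * (n : ℝ) ^ r := by ring
    have h4 := le_of_mul_le_mul_right h3 (hpow n hn2)
    linarith
  have hA : BddAbove {d : ℝ | LowB h r d} := ⟨2 ^ r * C, fun d hd => hbd d hd⟩
  have hne : {d : ℝ | LowB h r d}.Nonempty := ⟨c, hcA⟩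
  have hle : c ≤ sSup {d : ℝ | LowB h r d} := le_csSup hA hcA
  refine ⟨sSup {d : ℝ | LowB h r d}, lt_of_lt_of_le hc hle, ?_, ?_⟩
  · intro e he
    obtain ⟨d, hd, hd'⟩ := exists_lt_of_lt_csSup hne
      (show sSup {d : ℝ | LowB h r d} - e / 2 < sSup {d : ℝ | LowB h r d} by linarith)
    filter_upwards [hd (e / 2) (by linarith)] with n hn
    have h3 : (0 : ℝ) ≤ (n : ℝ) ^ r := by positivity
    refine le_trans (mul_le_mul_of_nonneg_right ?_ h3) hn
    linarith
  · intro e he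
    by_contra hcon
    rw [not_frequently] at hcon
    have h1 : LowB h r (sSup {d : ℝ | LowB h r d} + e) := by
      intro e' he'
      filter_upwards [hcon] with n hn
      have h3 : (0 : ℝ) ≤ (n : ℝ) ^ r := by positivity
      have h4 := (not_le.1 hn).le
      refine le_trans (mul_le_mul_of_nonneg_right ?_ h3) h4
      linarith
    have h2 := le_csSup hA h1
    linarith

theorem IsLim.le_of_lowB {h h' : ℕ → ℕ} {r : ℕ} {c d : ℝ} (hc : IsLim h r c)
    (hle : ∀ n, h' n ≤ h n) (hd : LowB h' r d) : d ≤ c := by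
  refine le_of_forall_pos_le_add (fun e he => ?_)
  have he2 : 0 < e / 2 := by linarith
  obtain ⟨n, hn1, hn2, hn3⟩ := ((hc.2 (e / 2) he2).and_eventually
    ((hd (e / 2) he2).and (eventually_ge_atTop 1))).exists
  have h1 : (0 : ℝ) < (n : ℝ) ^ r := by
    have h2 : (0 : ℝ) < n := by exact_mod_cast hn3
    positivity
  have h2 : (h' n : ℝ) ≤ (h n : ℝ) := by exact_mod_cast hle n
  have h3 : (d - e / 2) * (n : ℝ) ^ r ≤ (c + e / 2) * (n : ℝ) ^ r := hn2.trans (h2.trans hn1)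
  have h4 := le_of_mul_le_mul_right h3 h1
  linarith

theorem UppB.mono {h : ℕ → ℕ} {r : ℕ} {u v : ℝ} (h1 : UppB h r u) (huv : u ≤ v) :
    UppB h r v := by
  intro e he
  filter_upwards [h1 e he] with n hn
  have h3 : (0 : ℝ) ≤ (n : ℝ) ^ r := by positivity
  refine hn.trans (mul_le_mul_of_nonneg_right ?_ h3)
  linarith

end Pool.Agent.H62.N6
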