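import Pool.Agent.H62.N6.Defs

set_option autoImplicit false

/-! MODULE F0/Mono (about 150 lines). MP_4f0605_nt: bases of monomials for the Hilbert function (any field).

`MInd I T`: the monomials of `T` are linearly independent modulo `I`.
PROOF of `card_le_hF`. The classes of the monomials `m ∈ T` (degree at most `D`) are linearly independent elements of the space
`(restrictTotalDegree σ k D).map (mk I)`, which is finite dimensional (`restrictTotalDegree` is spanned by finitely many monomials): `LinearIndependent`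
gives `card T ≤ finrank`.
PROOF of `exists_mono_basis`. Induction on `D` (or directly): the images of the monomials of degree `≤ D` span the image `W_D` of
`restrictTotalDegree σ k D` (`MvPolynomial.restrictTotalDegree` = span of the monomials of degree `≤ D`: `MvPolynomial.restrictTotalDegree`,
`MvPolynomial.mem_restrictTotalDegree`, `MvPolynomial.as_sum`). Suppose `T_D` is given with `MInd I T_D`, all degrees `≤ D`, spanning `W_D` and
`card {m ∈ T_D : deg m ≤ j} = h_I(j)` for `j ≤ D`. Extend it by monomials of degree `D+1` to a basis of `W_{D+1}` (Mathlib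
`exists_linearIndependent_extension` / `LinearIndependent.extend` / `exists_linearIndepOn_extension` for the set of images of monomials of degree
`≤ D+1`): every new monomial has degree exactly `D+1`, because the monomials of degree `≤ D` are in the span of `T_D`. Then
`card {m ∈ T_{D+1} : deg m ≤ j}` is unchanged for `j ≤ D`, and `card T_{D+1} = dim W_{D+1} = h_I(D+1)`. -/

open MvPolynomial Filter

open scoped BigOperators

namespace Pool.Agent.H62.N6

variable {k : Type} [Field k] {σ : Type} [Fintype σ]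

/-- the monomials of `T` are linearly independent modulo `I` -/
def MInd (I : Ideal (MvPolynomial σ k)) (T : Finset (σ →₀ ℕ)) : Prop :=
  ∀ c : (σ →₀ ℕ) → k, ∑ m ∈ T, monomial m (c m) ∈ I → ∀ m ∈ T, c m = 0

private noncomputable def Mono_phi (I : Ideal (MvPolynomial σ k)) (m : σ →₀ ℕ) :
    MvPolynomial σ k ⧸ I := Ideal.Quotient.mkₐ k I (monomial m 1)

private noncomputable def Mono_W (I : Ideal (MvPolynomial σ k)) (D : ℕ) :
    Submodule k (MvPolynomial σ k ⧸ I) :=
  (restrictTotalDegree σ k D).map (Ideal.Quotient.mkₐ k I).toLinearMap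

omit [Fintype σ] in
private theorem Mono_smul (I : Ideal (MvPolynomial σ k)) (m : σ →₀ ℕ) (c : k) :
    c • Mono_phi I m = Ideal.Quotient.mkₐ k I (monomial m c) := by
  rw [Mono_phi, ← map_smul, smul_monomial, smul_eq_mul, mul_one]

omit [Fintype σ] in
private theorem Mono_mind (I : Ideal (MvPolynomial σ k)) (T : Finset (σ →₀ ℕ)) :
    MInd I T ↔ LinearIndepOn k (Mono_phi I) (T : Set (σ →₀ ℕ)) := by
  rw [linearIndepOn_finset_iff]
  have h : ∀ c : (σ →₀ ℕ) → k, (∑ m ∈ T, monomial m (c m) ∈ I ↔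
      ∑ m ∈ T, c m • Mono_phi I m = 0) := by
    intro c
    have h1 : ∑ m ∈ T, c m • Mono_phi I m = Ideal.Quotient.mkₐ k I (∑ m ∈ T, monomial m (c m)) := by
      rw [map_sum]
      exact Finset.sum_congr rfl (fun m _ => Mono_smul I m (c m))
    rw [h1, Ideal.Quotient.mkₐ_eq_mk, Ideal.Quotient.eq_zero_iff_mem]
  constructor
  · intro h1 c hc
    exact h1 c ((h c).2 hc)
  · intro h1 c hc
    exact h1 c ((h c).1 hc)

private theorem Mono_fin (D : ℕ) : {m : σ →₀ ℕ | m.degree ≤ D}.Finite :=
  Finsupp.finite_of_degree_le D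

omit [Fintype σ] in
private theorem Mono_memW (I : Ideal (MvPolynomial σ k)) (D : ℕ) (m : σ →₀ ℕ)
    (hm : m.degree ≤ D) : Mono_phi I m ∈ Mono_W I D := by
  refine ⟨monomial m 1, ?_, rfl⟩
  rw [SetLike.mem_coe, mem_restrictTotalDegree]
  refine (totalDegree_monomial_le m 1).trans ?_
  exact hm

omit [Fintype σ] in
private theorem Mono_span (I : Ideal (MvPolynomial σ k)) (D : ℕ) :
    Mono_W I D = Submodule.span k (Mono_phi I '' {m : σ →₀ ℕ | m.degree ≤ D}) := by
  apply le_antisymm
  · rintro _ ⟨F, hF, rfl⟩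
    rw [SetLike.mem_coe, mem_restrictTotalDegree] at hF
    have h1 : (Ideal.Quotient.mkₐ k I).toLinearMap F =
        ∑ m ∈ F.support, F.coeff m • Mono_phi I m := by
      conv_lhs => rw [F.as_sum]
      rw [map_sum]
      refine Finset.sum_congr rfl (fun m _ => ?_)
      rw [Mono_smul]
      rfl
    rw [h1]
    refine Submodule.sum_mem _ (fun m hm => Submodule.smul_mem _ _ (Submodule.subset_span
      ⟨m, ?_, rfl⟩))
    have h2 := le_totalDegree hm
    exact h2.trans hF
  · rw [Submodule.span_le]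
    rintro _ ⟨m, hm, rfl⟩
    exact Mono_memW I D m hm

private theorem Mono_finW (I : Ideal (MvPolynomial σ k)) (D : ℕ) :
    Module.Finite k (Mono_W I D) := by
  rw [Mono_span]
  exact Module.Finite.span_of_finite k ((Mono_fin D).image _)

theorem card_le_hF (I : Ideal (MvPolynomial σ k)) (D : ℕ) (T : Finset (σ →₀ ℕ))
    (hT : ∀ m ∈ T, m.degree ≤ D) (hI : MInd I T) : T.card ≤ hF I D := by
  haveI := Mono_finW I D
  rw [Mono_mind] at hI
  have h1 : LinearIndependent k (fun m : T => (⟨Mono_phi I m, Mono_memW I D m (hT m m.2)⟩ :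
      Mono_W I D)) := by
    refine LinearIndependent.of_comp (Mono_W I D).subtype ?_
    exact hI
  have h2 := h1.fintype_card_le_finrank
  rw [Fintype.card_coe] at h2
  exact h2

private theorem Mono_ext (I : Ideal (MvPolynomial σ k)) (D : ℕ) (T : Finset (σ →₀ ℕ))
    (hT : ∀ m ∈ T, m.degree ≤ D) (hI : MInd I T) :
    ∃ b : Finset (σ →₀ ℕ), T ⊆ b ∧ (∀ m ∈ b, m.degree ≤ D) ∧ MInd I b ∧
      b.card = hF I D ∧ Mono_W I D = Submodule.span k (Mono_phi I '' (b : Set (σ →₀ ℕ))) := by
  classical
  obtain ⟨b, hb1, hb2, hb3, hb4⟩ := exists_linearIndepOn_extension ((Mono_mind I T).1 hI)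
    (t := {m : σ →₀ ℕ | m.degree ≤ D}) (fun m hm => hT m hm)
  have hbf : b.Finite := (Mono_fin D).subset hb1
  obtain ⟨c, rfl⟩ := hbf.exists_finset_coe
  have h1 : Mono_W I D = Submodule.span k (Mono_phi I '' (c : Set (σ →₀ ℕ))) := by
    apply le_antisymm
    · rw [Mono_span, Submodule.span_le]
      exact hb3
    · rw [Mono_span]
      exact Submodule.span_mono (Set.image_mono hb1)
  refine ⟨c, fun m hm => hb2 hm, fun m hm => hb1 hm, (Mono_mind I c).2 hb4, ?_, h1⟩
  apply le_antisymm
  · exact card_le_hF I D c (fun m hm => hb1 hm) ((Mono_mind I c).2 hb4)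
  · have h2 : hF I D = Module.finrank k (Mono_W I D) := rfl
    rw [h2, h1]
    have h3 : (Mono_phi I '' (c : Set (σ →₀ ℕ))) = ((c.image (Mono_phi I) :
        Finset (MvPolynomial σ k ⧸ I)) : Set (MvPolynomial σ k ⧸ I)) := by
      rw [Finset.coe_image]
    rw [h3]
    exact (finrank_span_finset_le_card _).trans Finset.card_image_le

/-- a basis of monomials adapted to the degree -/
theorem exists_mono_basis (I : Ideal (MvPolynomial σ k)) (D : ℕ) :
    ∃ T : Finset (σ →₀ ℕ), (∀ m ∈ T, m.degree ≤ D) ∧ MInd I T ∧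
      (∀ j ≤ D, (T.filter fun m => m.degree ≤ j).card = hF I j) ∧
      ∀ F : MvPolynomial σ k, F.totalDegree ≤ D →
        ∃ c : (σ →₀ ℕ) → k, F - ∑ m ∈ T, monomial m (c m) ∈ I := by
  classical
  have hfilter : ∀ (T : Finset (σ →₀ ℕ)) (j : ℕ), MInd I T →
      (T.filter fun m => m.degree ≤ j).card ≤ hF I j := by
    intro T j hT
    refine card_le_hF I j _ (fun m hm => (Finset.mem_filter.1 hm).2) ?_
    rw [Mono_mind] at hT ⊢
    exact hT.mono (Finset.coe_subset.2 (Finset.filter_subset _ _))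
  have key : ∃ T : Finset (σ →₀ ℕ), (∀ m ∈ T, m.degree ≤ D) ∧ MInd I T ∧
      (∀ j ≤ D, (T.filter fun m => m.degree ≤ j).card = hF I j) ∧
      Mono_W I D = Submodule.span k (Mono_phi I '' (T : Set (σ →₀ ℕ))) := by
    induction D with
    | zero =>
      obtain ⟨b, -, hb2, hb3, hb4, hb5⟩ := Mono_ext I 0 ∅ (by simp) (by
        intro c _ m hm
        exact absurd hm (Finset.notMem_empty _))
      refine ⟨b, hb2, hb3, ?_, hb5⟩
      intro j hj
      obtain rfl : j = 0 := Nat.le_zero.1 hj
      rw [Finset.filter_true_of_mem hb2, hb4]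
    | succ D ih =>
      obtain ⟨T, hT1, hT2, hT3, -⟩ := ih
      obtain ⟨b, hb1, hb2, hb3, hb4, hb5⟩ := Mono_ext I (D + 1) T
        (fun m hm => (hT1 m hm).trans (Nat.le_succ D)) hT2
      refine ⟨b, hb2, hb3, ?_, hb5⟩
      intro j hj
      rcases Nat.lt_or_ge D j with hjD | hjD
      · obtain rfl : j = D + 1 := le_antisymm hj hjD
        rw [Finset.filter_true_of_mem hb2, hb4]
      · apply le_antisymm (hfilter b j hb3)
        rw [← hT3 j hjD]
        exact Finset.card_le_card (Finset.filter_subset_filter _ hb1)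
  obtain ⟨T, hT1, hT2, hT3, hT4⟩ := key
  refine ⟨T, hT1, hT2, hT3, ?_⟩
  intro F hFD
  have h1 : (Ideal.Quotient.mkₐ k I) F ∈ Mono_W I D :=
    ⟨F, by rw [SetLike.mem_coe, mem_restrictTotalDegree]; exact hFD, rfl⟩
  rw [hT4, Submodule.mem_span_image_finset_iff_exists_fun] at h1
  obtain ⟨c, hc⟩ := h1
  have hc2 : (Ideal.Quotient.mkₐ k I) F =
      ∑ m ∈ T, (if h : m ∈ T then c ⟨m, h⟩ else 0) • Mono_phi I m := by
    rw [← hc, ← Finset.sum_coe_sort T (fun m => (if h : m ∈ T then c ⟨m, h⟩ else 0) •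
      Mono_phi I m)]
    refine Finset.sum_congr rfl (fun m _ => ?_)
    rw [dif_pos m.2]
  refine ⟨fun m => if h : m ∈ T then c ⟨m, h⟩ else 0, ?_⟩
  rw [← Ideal.Quotient.eq_zero_iff_mem, map_sub, sub_eq_zero, ← Ideal.Quotient.mkₐ_eq_mk k,
    hc2, map_sum]
  exact Finset.sum_congr rfl (fun m _ => Mono_smul I m _)

end Pool.Agent.H62.N6
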