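import Pool.Agent.H62.N6.Defs

set_option autoImplicit false

/-! MODULE F0/IsK (about 80 lines). MP_4f0605_nt: the ultrapower of `ℚ`.

PROOF of `exists_isK`. `K = Filter.Germ (U : Filter ℕ) ℚ` is a field (Mathlib `Filter.Germ.instField`, file `Order/Filter/FilterProduct`, for an ultrafilter);
`φ a = ((fun j => (a j : ℚ)) : germ)`, a ring homomorphism (`Filter.Germ.coeRingHom` composed with `Pi.ringHom`/`RingHom.compLeft (Int.castRingHom ℚ)`).
`ker`: `Filter.Germ.coe_eq`, `Int.cast_eq_zero`. `frac`: an element is the germ of `x : ℕ → ℚ`; `a j = (x j).num`, `b j = (x j).den` (`Rat.num_div_den`,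
`Rat.mul_den_eq_num`); `φ b ≠ 0` because `(x j).den ≠ 0`.
PROOF of `charZero`. `(n : K) = φ (fun _ => n)` (`map_natCast`); it is zero iff `(n : ℤ) = 0` for `U`-many `j`, so `n = 0`
(`Filter.eventually_const`); `charZero_of_inj_zero`. -/

open MvPolynomial Filter

namespace Pool.Agent.H62.N6

variable {U : Ultrafilter ℕ}

/-- `K` = ultrapower of `ℚ`. -/
theorem exists_isK (U : Ultrafilter ℕ) :
    ∃ (K : Type) (_ : Field K) (φ : (ℕ → ℤ) →+* K), IsK U φ := by
  refine ⟨Filter.Germ (U : Filter ℕ) ℚ, inferInstance,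
    (Filter.Germ.coeRingHom (U : Filter ℕ)).comp ((Int.castRingHom ℚ).compLeft ℕ), ?_, ?_⟩
  · intro a
    constructor
    · intro h
      have h1 : ((fun j => ((a j : ℤ) : ℚ) : ℕ → ℚ) : Filter.Germ (U : Filter ℕ) ℚ)
          = ((fun _ => (0 : ℚ) : ℕ → ℚ) : Filter.Germ (U : Filter ℕ) ℚ) := h
      rw [Filter.Germ.coe_eq] at h1
      filter_upwards [h1] with j hj
      exact_mod_cast hj
    · intro h
      have h1 : ((fun j => ((a j : ℤ) : ℚ) : ℕ → ℚ) : Filter.Germ (U : Filter ℕ) ℚ)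
          = ((fun _ => (0 : ℚ) : ℕ → ℚ) : Filter.Germ (U : Filter ℕ) ℚ) := by
        rw [Filter.Germ.coe_eq]
        filter_upwards [h] with j hj
        simp [hj]
      exact h1
  · intro x
    induction x using Filter.Germ.inductionOn with
    | _ q =>
      refine ⟨fun j => (q j).num, fun j => ((q j).den : ℤ), ?_, ?_⟩
      · intro h
        have h1 : ((fun j => (((q j).den : ℤ) : ℚ) : ℕ → ℚ) : Filter.Germ (U : Filter ℕ) ℚ)
          = ((fun _ => (0 : ℚ) : ℕ → ℚ) : Filter.Germ (U : Filter ℕ) ℚ) := h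
        rw [Filter.Germ.coe_eq] at h1
        obtain ⟨j, hj⟩ := h1.exists
        have h3 : (((q j).den : ℤ) : ℚ) = 0 := hj
        have h2 : (q j).den = 0 := by exact_mod_cast h3
        exact (q j).den_nz h2
      · have h1 : ((fun j => q j * (((q j).den : ℤ) : ℚ) : ℕ → ℚ) :
            Filter.Germ (U : Filter ℕ) ℚ)
          = ((fun j => (((q j).num : ℤ) : ℚ) : ℕ → ℚ) : Filter.Germ (U : Filter ℕ) ℚ) := by
          rw [Filter.Germ.coe_eq]
          refine Filter.Eventually.of_forall fun j => ?_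
          simp
        exact h1

theorem IsK.charZero {K : Type} [Field K] {φ : (ℕ → ℤ) →+* K} (h : IsK U φ) : CharZero K := by
  apply charZero_of_inj_zero
  intro n hn
  rw [← map_natCast φ n, h.ker] at hn
  obtain ⟨j, hj⟩ := hn.exists
  have h1 : ((n : ℕ) : ℤ) = 0 := hj
  exact_mod_cast h1

end Pool.Agent.H62.N6
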